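import Pool.Agent.UL4.Stmts
import Pool.Agent.Helper19_UL3.CCV

/-!
Squad UL4 (MP_c7c9bf_co), row CCG (helper15): the square root of the area of the sections is concave.
-/

set_option autoImplicit false

open MeasureTheory Set
open scoped Pointwise

namespace Pool.Agent.UL4.H15

open Pool.Agent.UL3 Pool.Agent.UL4

theorem ccg (hscg : ScgStmt) : CcgStmt := by
  intro K w hK hw
  obtain ⟨hS, hne, -, -⟩ := hscg K w hK hw
  refine ⟨convex_Icc _ _, ?_⟩
  intro s hs t ht a b ha hb hab
  have hn : Module.finrank ℝ (ℝ × ℝ) = 2 := by simp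
  have hsub : a • sec K s + b • sec K t ⊆ sec K (a • s + b • t) := by
    rintro _ ⟨_, ⟨p, hp, rfl⟩, _, ⟨q, hq, rfl⟩, rfl⟩
    rw [mem_sec] at hp hq ⊢
    have h1 := hK.cvx hp hq ha hb hab
    rw [up_smul, up_smul, up_add] at h1
    exact h1
  have hbm := BM64.bm_pow (volume : Measure (ℝ × ℝ)) ((hS s).1.smul a) ((hS t).1.smul b)
    ((hne s hs).smul_set) ((hne t ht).smul_set)
    (a := a * Real.sqrt (al K s)) (b := b * Real.sqrt (al K t))
    (mul_nonneg ha (Real.sqrt_nonneg _)) (mul_nonneg hb (Real.sqrt_nonneg _))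
    (by rw [hn, Pool.Agent.UL3.H19.real_smul_set, mul_pow,
      Real.sq_sqrt (by exact measureReal_nonneg), al])
    (by rw [hn, Pool.Agent.UL3.H19.real_smul_set, mul_pow,
      Real.sq_sqrt (by exact measureReal_nonneg), al])
  rw [hn] at hbm
  have hmono : (volume : Measure (ℝ × ℝ)).real (a • sec K s + b • sec K t) ≤
      al K (a • s + b • t) :=
    measureReal_mono hsub (hS _).1.measure_lt_top.ne
  have h0 : 0 ≤ a * Real.sqrt (al K s) + b * Real.sqrt (al K t) :=
    add_nonneg (mul_nonneg ha (Real.sqrt_nonneg _)) (mul_nonneg hb (Real.sqrt_nonneg _))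
  simp only [smul_eq_mul] at hmono hbm ⊢
  rw [← Real.sqrt_sq h0]
  exact Real.sqrt_le_sqrt (hbm.trans hmono)

end Pool.Agent.UL4.H15
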